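import Mathlib
import Pool.Agent.X215.Dens.Core
import Pool.Agent.X215.Dens.Mass

/-!
Every analytic MAD family for the density zero ideal is countable.
-/

namespace Pool.Agent.Results.MP_af84fe_lc.AnalyticMad

open Filter Topology

/-- The density zero ideal. -/
def Z0 : Set (Set ℕ) :=
  {A | Tendsto (fun n : ℕ => ((A ∩ Set.Iio n).ncard : ℝ) / n) atTop (𝓝 0)}

/-- The family `𝒜` of subsets of `ℕ` is analytic in the Cantor space. -/
def IsAnalyticFamily (𝒜 : Set (Set ℕ)) : Prop :=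
  MeasureTheory.AnalyticSet {x : ℕ → Bool | {n | x n = true} ∈ 𝒜}

/-- `𝒜` is an `I`-MAD family. -/
def IsMAD (I : Set (Set ℕ)) (𝒜 : Set (Set ℕ)) : Prop :=
  (∀ A ∈ 𝒜, A ∉ I) ∧ (∀ A ∈ 𝒜, ∀ B ∈ 𝒜, A ≠ B → A ∩ B ∈ I) ∧
    ∀ X : Set ℕ, X ∉ I → ∃ A ∈ 𝒜, X ∩ A ∉ I

open Pool.Agent.X215.Dens Pool.Agent.H38R3.Mad in
theorem key {𝒜 : Set (Set ℕ)} (ha : IsAnalyticFamily 𝒜) (hm : IsMAD Z0 𝒜) {η : ℝ} (hη : 0 < η) :
    {A ∈ 𝒜 | ∃ᶠ m in atTop, η < mass m A}.Finite := by
  classical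
  by_contra hinf
  have hZ : ∀ A : Set ℕ, A ∈ Z0 ↔ DZ A := fun A => Iff.rfl
  obtain ⟨hpos, had, hmax⟩ := hm
  let D : ℕ → Set ℕ := fun n => (Set.Infinite.natEmbedding _ hinf n : Set ℕ)
  have hDinj : Function.Injective D := fun a b h =>
    (Set.Infinite.natEmbedding _ hinf).injective (Subtype.ext h)
  have hD𝒜 : ∀ a, D a ∈ 𝒜 := fun a => (Set.Infinite.natEmbedding _ hinf a).2.1
  have hDm : ∀ a, ∃ᶠ m in atTop, η < mass m (D a) := fun a =>
    (Set.Infinite.natEmbedding _ hinf a).2.2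
  obtain ⟨φ, hφ, hφD⟩ := extraction_forall_of_frequently
    (P := fun n k => η < mass k (D n.unpair.1)) fun n => hDm _
  let e : ℕ → ℕ → ℕ := fun a b => φ (Nat.pair a b)
  have he : ∀ a b a' b', e a b = e a' b' → a = a' ∧ b = b' := fun a b a' b' h =>
    Nat.pair_eq_pair.1 (hφ.injective h)
  have heD : ∀ a b, η < mass (e a b) (D a) := by
    intro a b
    have := hφD (Nat.pair a b)
    rwa [Nat.unpair_pair] at this
  -- the continuous parametrisation
  rw [IsAnalyticFamily, MeasureTheory.AnalyticSet] at ha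
  obtain ⟨g, hg, hgr⟩ : ∃ g : (ℕ → ℕ) → (ℕ → Bool), Continuous g ∧
      Set.range g = {x : ℕ → Bool | {n | x n = true} ∈ 𝒜} := by
    rcases ha with ha | ha
    · exfalso
      have : (fun n => decide (n ∈ D 0)) ∈ {x : ℕ → Bool | {n | x n = true} ∈ 𝒜} := by
        show {n | decide (n ∈ D 0) = true} ∈ 𝒜
        simpa using hD𝒜 0
      rw [ha] at this
      exact this
    · exact ha
  have hg𝒜 : ∀ x, {n | g x n = true} ∈ 𝒜 := by
    intro x
    have : g x ∈ Set.range g := ⟨x, rfl⟩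
    rw [hgr] at this
    exact this
  have h𝒜g : ∀ A ∈ 𝒜, ∃ x, {n | g x n = true} = A := by
    intro A hA
    have : (fun n => decide (n ∈ A)) ∈ {x : ℕ → Bool | {n | x n = true} ∈ 𝒜} := by
      show {n | decide (n ∈ A) = true} ∈ 𝒜
      simpa using hA
    rw [← hgr] at this
    obtain ⟨x, hx⟩ := this
    refine ⟨x, ?_⟩
    rw [hx]
    ext n
    simp
  have hmass : ∀ A ∈ 𝒜, ∀ B ∈ 𝒜, A ≠ B → Tendsto (fun m => mass m (A ∩ B)) atTop (𝓝 0) :=
    fun A hA B hB h => tendsto_mass_of_dz (had A hA B hB h)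
  have hinj : ∀ z : Set ℕ, z.Infinite →
      Function.Injective fun k => e (en z (2 * k)) (en z (2 * k + 1)) := by
    intro z hz k l h
    have := (en_strictMono hz).injective (he _ _ _ _ h).1
    omega
  refine core (Φ := fun j A a b => 1 / ((j : ℝ) + 1) ≤ mass (e a b) ({n | A n = true} ∩ D a))
    ?_ hg ?_ ?_ ?_
  · -- locality
    intro j a b
    refine ⟨2 ^ (e a b + 1), fun A A' hAA' h => h.trans (mass_mono ?_)⟩
    rintro n ⟨⟨hn1, hn2⟩, hn3⟩
    refine ⟨?_, hn2⟩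
    show A' n = true
    rw [← hAA' n (by rw [blk, Set.mem_Ico] at hn3; exact hn3.2)]
    exact hn1
  · -- maximality
    intro z hz
    let X : Set ℕ := {n | ∃ k, n ∈ blk (e (en z (2 * k)) (en z (2 * k + 1))) ∧ n ∈ D (en z (2 * k))}
    have hX : X ∉ Z0 := by
      intro hX
      have h1 := (tendsto_mass_of_dz ((hZ X).1 hX)).comp (hinj z hz).nat_tendsto_atTop
      have h2 := h1.eventually_le_const (by linarith : (0 : ℝ) < η)
      obtain ⟨k, hk⟩ := h2.exists
      have h3 := heD (en z (2 * k)) (en z (2 * k + 1))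
      have h4 : mass (e (en z (2 * k)) (en z (2 * k + 1))) (D (en z (2 * k))) ≤
          mass (e (en z (2 * k)) (en z (2 * k + 1))) X :=
        mass_mono fun n hn => ⟨k, hn.2, hn.1⟩
      simp only [Function.comp_apply] at hk
      linarith
    obtain ⟨A, hA, hXA⟩ := hmax X hX
    obtain ⟨x, hx⟩ := h𝒜g A hA
    obtain ⟨j, hj⟩ := exists_frequently_mass (fun h => hXA ((hZ _).2 h))
    refine ⟨x, j, fun hfin => ?_⟩
    refine Nat.frequently_atTop_iff_infinite.1 hj ((hfin.image fun k =>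
      e (en z (2 * k)) (en z (2 * k + 1))).subset ?_)
    intro m hm
    have hm' : 1 / ((j : ℝ) + 1) ≤ mass m (X ∩ A) := hm
    have hpos' : 0 < mass m (X ∩ A) := lt_of_lt_of_le (by positivity) hm'
    have hne : ((X ∩ A) ∩ blk m).Nonempty := by
      by_contra hne
      rw [Set.not_nonempty_iff_eq_empty] at hne
      rw [mass, hne] at hpos'
      simp at hpos'
    obtain ⟨n, ⟨⟨k, hk1, hk2⟩, hnA⟩, hnm⟩ := hne
    have hmk := mem_blk_unique hk1 hnm
    refine ⟨k, ?_, hmk⟩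
    show 1 / ((j : ℝ) + 1) ≤ mass (e (en z (2 * k)) (en z (2 * k + 1)))
      ({n | g x n = true} ∩ D (en z (2 * k)))
    rw [hx]
    refine (hmk ▸ hm').trans (mass_mono ?_)
    rintro n' ⟨⟨⟨k', hk'1, hk'2⟩, hn'A⟩, hn'm⟩
    have : k' = k := hinj z hz (mem_blk_unique hk'1 hn'm)
    rw [this] at hk'2
    exact ⟨hn'A, hk'2⟩
  · -- almost disjointness
    intro j
    obtain ⟨r, hr⟩ : ∃ r, r = 2 * (j + 1) := ⟨_, rfl⟩
    refine ⟨r, fun F hF z hz hall => ?_⟩
    let A : ℕ → Set ℕ := fun i => if h : i < r then {n | g (F ⟨i, h⟩) n = true} else ∅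
    have hA : ∀ i (h : i < r), A i = {n | g (F ⟨i, h⟩) n = true} := fun i h => dif_pos h
    have h1 : Tendsto (fun m => ∑ i ∈ Finset.range r, ∑ i' ∈ Finset.range i,
        mass m (A i' ∩ A i)) atTop (𝓝 (∑ i ∈ Finset.range r, ∑ i' ∈ Finset.range i, (0 : ℝ))) := by
      refine tendsto_finsetSum _ fun i hi => tendsto_finsetSum _ fun i' hi' => ?_
      rw [Finset.mem_range] at hi hi'
      rw [hA i hi, hA i' (hi'.trans hi)]
      refine hmass _ (hg𝒜 _) _ (hg𝒜 _) fun heq => ?_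
      have h2 : g (F ⟨i', hi'.trans hi⟩) = g (F ⟨i, hi⟩) := by
        funext n
        have h3 : n ∈ {n | g (F ⟨i', hi'.trans hi⟩) n = true} ↔
            n ∈ {n | g (F ⟨i, hi⟩) n = true} := by rw [heq]
        exact Bool.eq_iff_iff.2 h3
      have h4 := hF h2
      rw [Fin.mk.injEq] at h4
      omega
    simp only [Finset.sum_const_zero] at h1
    have h2 := (h1.comp (hinj z hz).nat_tendsto_atTop).eventually_le_const
      (by norm_num : (0 : ℝ) < 1 / 2)
    obtain ⟨k, hk⟩ := h2.exists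
    simp only [Function.comp_apply] at hk
    have h3 := sum_mass_le (e (en z (2 * k)) (en z (2 * k + 1))) r A
    have h4 := mass_le_one (e (en z (2 * k)) (en z (2 * k + 1))) {n | ∃ i < r, n ∈ A i}
    have h5 : ∑ i ∈ Finset.range r, (1 / ((j : ℝ) + 1)) ≤
        ∑ i ∈ Finset.range r, mass (e (en z (2 * k)) (en z (2 * k + 1))) (A i) := by
      refine Finset.sum_le_sum fun i hi => ?_
      rw [Finset.mem_range] at hi
      refine (hall k ⟨i, hi⟩).trans (mass_mono ?_)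
      rintro n ⟨⟨hn, -⟩, -⟩
      rw [hA i hi]
      exact hn
    rw [Finset.sum_const, Finset.card_range, nsmul_eq_mul] at h5
    have h6 : (r : ℝ) * (1 / ((j : ℝ) + 1)) = 2 := by
      rw [hr]
      push_cast
      field_simp
    rw [h6] at h5
    linarith
  · -- sections
    intro x j
    have h1 : ∃ a₀, ∀ a ≥ a₀, {n | g x n = true} ≠ D a := by
      by_cases h : ∃ a, {n | g x n = true} = D a
      · obtain ⟨a₁, ha₁⟩ := h
        refine ⟨a₁ + 1, fun a ha' heq => ?_⟩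
        have := hDinj (ha₁.symm.trans heq)
        omega
      · exact ⟨0, fun a _ heq => h ⟨a, heq⟩⟩
    obtain ⟨a₀, ha₀⟩ := h1
    refine ⟨a₀, fun a ha' => ?_⟩
    have h2 := hmass _ (hg𝒜 x) _ (hD𝒜 a) (ha₀ a ha')
    have h3 : Function.Injective (e a) := fun b b' h => (he _ _ _ _ h).2
    have h4 := (h2.comp h3.nat_tendsto_atTop).eventually_lt_const
      (by positivity : (0 : ℝ) < 1 / ((j : ℝ) + 1))
    obtain ⟨N, hN⟩ := eventually_atTop.1 h4
    refine (Set.finite_Iio N).subset fun b hb => ?_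
    rw [Set.mem_Iio]
    by_contra hbN
    have h5 := hN b (by omega)
    simp only [Function.comp_apply] at h5
    have h6 : 1 / ((j : ℝ) + 1) ≤ mass (e a b) ({n | g x n = true} ∩ D a) := hb
    linarith

/-- **Every analytic `Z₀`-MAD family is countable**; moreover for each `ε > 0` only finitely many
of its members have upper density at least `ε`. -/
theorem result (𝒜 : Set (Set ℕ)) (ha : IsAnalyticFamily 𝒜) (hm : IsMAD Z0 𝒜) :
    𝒜.Countable ∧ ∀ ε : ℝ, 0 < ε →
      {A ∈ 𝒜 | ∃ᶠ n : ℕ in atTop, ε * n ≤ ((A ∩ Set.Iio n).ncard : ℝ)}.Finite := by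
  constructor
  · have h1 : 𝒜 ⊆ ⋃ j : ℕ, {A ∈ 𝒜 | ∃ᶠ m in atTop,
        1 / ((j : ℝ) + 2) < Pool.Agent.X215.Dens.mass m A} := by
      intro A hA
      obtain ⟨j, hj⟩ := Pool.Agent.X215.Dens.exists_frequently_mass (A := A)
        (fun h => hm.1 A hA h)
      refine Set.mem_iUnion.2 ⟨j, hA, hj.mono fun m h => lt_of_lt_of_le ?_ h⟩
      exact one_div_lt_one_div_of_lt (by positivity) (by linarith)
    exact (Set.countable_iUnion fun j => (key ha hm (by positivity)).countable).mono h1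
  · intro ε hε
    refine (key ha hm (by linarith : 0 < ε / 6)).subset ?_
    rintro A ⟨hA, hfr⟩
    refine ⟨hA, ?_⟩
    by_contra hcon
    rw [not_frequently] at hcon
    have h1 := Pool.Agent.X215.Dens.cnt_le_of_mass_le (A := A) (by linarith : 0 < ε / 6)
      (hcon.mono fun m h => not_lt.1 h)
    obtain ⟨n, hn1, hn2, hn3⟩ := (hfr.and_eventually (h1.and (eventually_gt_atTop 0))).exists
    have hn4 : (0 : ℝ) < n := by exact_mod_cast hn3
    have hn5 : ((A ∩ Set.Iio n).ncard : ℝ) ≤ 3 * (ε / 6) * n := hn2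
    nlinarith

end Pool.Agent.Results.MP_af84fe_lc.AnalyticMad
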